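import Mathlib
import Pool.Agent.Helper45.TC.Df

/-!
# Block A1: primes of degree one which do not split: definitions
-/

set_option autoImplicit false

open NumberField IsDedekindDomain Filter Topology

namespace Pool.Agent.Helper44.TC

open Pool.Agent.Helper45.TC

/-- the real zeta function -/
noncomputable def zt (F : Type) [Field F] [NumberField F] (x : ℝ) : ℝ :=
  (dedekindZeta F (x : ℂ)).re

/-- the weight of the prime `q` -/
noncomputable def wt {F : Type} [Field F] [NumberField F] (x : ℝ)
    (q : HeightOneSpectrum (𝓞 F)) : ℝ := (nm q : ℝ) ^ (-x)

end Pool.Agent.Helper44.TC
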