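import Mathlib
import Pool.Agent.Helper44.TC.Dz

/-!
# Piece A1-1: the zeta function as a sum over ideals

PROOF. `dedekindZeta F x = LSeries (fun n => cnt n) x`, `cnt n` = number of ideals of norm `n`
(Mathlib, NumberField/DedekindZeta.lean). The series converges for `x > 1` (the counting function of
the ideals is `O(n)`: `Ideal.tendsto_norm_le_div_atTop`, `LSeriesSummable_of_sum_norm_bigO` or as
in the proof of `tendsto_sub_one_mul_dedekindZeta_nhdsGT`), its terms are the real numbers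
`cnt n * n ^ (-x)`, so `zt F x = ∑' n, cnt n * n ^ (-x)` (for `n >= 1`; the term `n = 0` is `0`).
`zt_tendsto`: real part of `tendsto_sub_one_mul_dedekindZeta_nhdsGT`, `dedekindZeta_residue_pos`.
`sum_le_zt`: group the ideals of `S` by their norm (nonzero ideals have norm `>= 1`), at most `cnt n`
of norm `n`. `zt_le`: every finite sum of terms is the sum over the finite set of
nonzero ideals with norm in a finite set (`Ideal.finite_setOf_absNorm_eq`).
-/

set_option autoImplicit false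

open NumberField IsDedekindDomain Filter Topology

namespace Pool.Agent.Helper44.TC

open Pool.Agent.Helper45.TC

theorem zt_tendsto (F : Type) [Field F] [NumberField F] :
    ∃ ρ : ℝ, 0 < ρ ∧ Tendsto (fun x : ℝ => (x - 1) * zt F x) (𝓝[>] 1) (𝓝 ρ) := by
  refine ⟨dedekindZeta_residue F, dedekindZeta_residue_pos F, ?_⟩
  have h := (Complex.continuous_re.tendsto _).comp (tendsto_sub_one_mul_dedekindZeta_nhdsGT F)
  rw [Complex.ofReal_re] at h
  refine h.congr fun x => ?_
  show (((x : ℂ) - 1) * dedekindZeta F x).re = (x - 1) * zt F x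
  have e : ((x : ℂ) - 1) = ((x - 1 : ℝ) : ℂ) := by push_cast; rfl
  rw [e, Complex.re_ofReal_mul]
  rfl

/-- the number of ideals of norm `n` -/
private noncomputable def z1_cnt (F : Type) [Field F] [NumberField F] (n : ℕ) : ℝ :=
  (Nat.card {I : Ideal (𝓞 F) // Ideal.absNorm I = n} : ℝ)

private theorem z1_lim (F : Type) [Field F] [NumberField F] :
    Tendsto (fun n : ℕ => (∑ k ∈ Finset.Icc 1 n, z1_cnt F k) / (n : ℝ)) atTop
      (𝓝 (dedekindZeta_residue F)) := by
  refine ((Ideal.tendsto_norm_le_div_atTop₀ F).comp tendsto_natCast_atTop_atTop).congr fun n ↦ ?_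
  unfold z1_cnt
  simp only [Function.comp_apply, Nat.cast_le, ← Nat.cast_sum]
  congr
  rw [← add_left_inj 1, ← Ideal.card_norm_le_eq_card_norm_le_add_one,
    show Finset.Icc 1 n = Finset.Ioc 0 n from Finset.Icc_succ_left_eq_Ioc _ _,
    show 1 = Nat.card {I : Ideal (𝓞 F) // Ideal.absNorm I = 0} by
      simp [Ideal.absNorm_eq_zero_iff],
    Finset.sum_Ioc_add_eq_sum_Icc (n.zero_le),
    ← Finset.card_preimage_eq_sum_card_image_eq
      (fun k _ ↦ Ideal.finite_setOfPred_absNorm_eq k)]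
  simp [Set.coe_eq_subtype]

private theorem z1_sm (F : Type) [Field F] [NumberField F] {x : ℝ} (hx : 1 < x) :
    LSeriesSummable (fun n => ((z1_cnt F n : ℝ) : ℂ)) (x : ℂ) := by
  refine LSeriesSummable_of_sum_norm_bigO_and_nonneg (r := 1) ?_ (fun n => Nat.cast_nonneg _)
    zero_le_one (by rw [Complex.ofReal_re]; exact hx)
  refine Asymptotics.isBigO_of_div_tendsto_nhds ?_ (dedekindZeta_residue F) ?_
  · filter_upwards [eventually_gt_atTop 0] with n hn h
    rw [Real.rpow_one] at h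
    exact absurd (Nat.cast_eq_zero.1 h) hn.ne'
  · refine (z1_lim F).congr fun n => ?_
    rw [Pi.div_apply, Real.rpow_one]

private theorem z1_hasSum (F : Type) [Field F] [NumberField F] {x : ℝ} (hx : 1 < x) :
    HasSum (fun n : ℕ => if n = 0 then 0 else z1_cnt F n * (n : ℝ) ^ (-x)) (zt F x) := by
  have h1 : HasSum (LSeries.term (fun n => ((z1_cnt F n : ℝ) : ℂ)) (x : ℂ))
      (dedekindZeta F (x : ℂ)) := (z1_sm F hx).hasSum
  have h2 := (Complex.reCLM.hasSum h1)
  have e0 : (fun n : ℕ => if n = 0 then 0 else z1_cnt F n * (n : ℝ) ^ (-x)) =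
      fun n => (LSeries.term (fun n => ((z1_cnt F n : ℝ) : ℂ)) (x : ℂ) n).re := ?_
  · rw [e0]
    exact h2
  funext n
  symm
  rw [LSeries.term_def]
  split_ifs with h
  · rfl
  · have e : ((z1_cnt F n : ℝ) : ℂ) / (n : ℂ) ^ (x : ℂ) =
        ((z1_cnt F n * (n : ℝ) ^ (-x) : ℝ) : ℂ) := by
      rw [Complex.ofReal_mul, Real.rpow_neg (Nat.cast_nonneg n), Complex.ofReal_inv,
        Complex.ofReal_cpow (Nat.cast_nonneg n), Complex.ofReal_natCast, div_eq_mul_inv]
    rw [e, Complex.ofReal_re]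

theorem sum_le_zt (F : Type) [Field F] [NumberField F] {x : ℝ} (hx : 1 < x)
    (S : Finset (Ideal (𝓞 F))) (hS : ∀ I ∈ S, I ≠ ⊥) :
    ∑ I ∈ S, (Ideal.absNorm I : ℝ) ^ (-x) ≤ zt F x := by
  classical
  have h1 := z1_hasSum F hx
  have hnn : ∀ n : ℕ, 0 ≤ (if n = 0 then 0 else z1_cnt F n * (n : ℝ) ^ (-x)) := by
    intro n
    split_ifs
    · exact le_rfl
    · exact mul_nonneg (Nat.cast_nonneg _) (Real.rpow_nonneg (Nat.cast_nonneg _) _)
  refine le_trans ?_ (sum_le_hasSum (S.image Ideal.absNorm) (fun n _ => hnn n) h1)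
  rw [← Finset.sum_fiberwise_of_maps_to (s := S) (t := S.image Ideal.absNorm)
    (g := fun I => Ideal.absNorm I) (fun I hI => Finset.mem_image_of_mem _ hI)]
  refine Finset.sum_le_sum fun n hn => ?_
  have hn0 : n ≠ 0 := by
    obtain ⟨I, hI, rfl⟩ := Finset.mem_image.1 hn
    exact fun h => hS I hI (Ideal.absNorm_eq_zero_iff.1 h)
  rw [if_neg hn0]
  have h2 : ∑ I ∈ S with Ideal.absNorm I = n, (Ideal.absNorm I : ℝ) ^ (-x) =
      ((S.filter fun I => Ideal.absNorm I = n).card : ℝ) * (n : ℝ) ^ (-x) := by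
    rw [← nsmul_eq_mul, ← Finset.sum_const]
    refine Finset.sum_congr rfl fun I hI => ?_
    rw [(Finset.mem_filter.1 hI).2]
  rw [h2]
  refine mul_le_mul_of_nonneg_right ?_ (Real.rpow_nonneg (Nat.cast_nonneg _) _)
  unfold z1_cnt
  rw [Nat.cast_le]
  have hfin : {I : Ideal (𝓞 F) | Ideal.absNorm I = n}.Finite :=
    Ideal.finite_setOfPred_absNorm_eq n
  have h3 : Nat.card {I : Ideal (𝓞 F) // Ideal.absNorm I = n} = hfin.toFinset.card :=
    Nat.card_eq_card_finite_toFinset hfin
  rw [h3]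
  refine Finset.card_le_card fun I hI => ?_
  rw [Set.Finite.mem_toFinset]
  exact (Finset.mem_filter.1 hI).2

theorem zt_le (F : Type) [Field F] [NumberField F] {x : ℝ} (hx : 1 < x) (c : ℝ)
    (h : ∀ S : Finset (Ideal (𝓞 F)), (∀ I ∈ S, I ≠ ⊥) →
      ∑ I ∈ S, (Ideal.absNorm I : ℝ) ^ (-x) ≤ c) : zt F x ≤ c := by
  classical
  refine hasSum_le_of_sum_le (z1_hasSum F hx) fun T => ?_
  have hfin : ∀ n : ℕ, {I : Ideal (𝓞 F) | Ideal.absNorm I = n}.Finite := fun n =>
    Ideal.finite_setOfPred_absNorm_eq n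
  have hdis : Set.PairwiseDisjoint (↑(T.filter fun n => n ≠ 0))
      fun n : ℕ => (hfin n).toFinset := by
    intro n _ m _ hnm
    rw [Function.onFun, Finset.disjoint_left]
    intro I h1 h2
    rw [Set.Finite.mem_toFinset] at h1 h2
    exact hnm (Eq.trans (Eq.symm h1) h2)
  have h1 := h ((T.filter fun n => n ≠ 0).biUnion fun n => (hfin n).toFinset) (by
    intro I hI h0
    obtain ⟨n, hn, hI⟩ := Finset.mem_biUnion.1 hI
    rw [Set.Finite.mem_toFinset] at hI
    have h2 : Ideal.absNorm I = n := hI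
    rw [h0, Ideal.absNorm_bot] at h2
    exact (Finset.mem_filter.1 hn).2 h2.symm)
  refine le_trans (le_of_eq ?_) h1
  rw [Finset.sum_biUnion hdis, Finset.sum_filter]
  refine Finset.sum_congr rfl fun n hn => ?_
  by_cases h0 : n = 0
  · rw [if_pos h0, if_neg (by simpa using h0)]
  · rw [if_neg h0, if_pos h0]
    have h2 : ∑ I ∈ (hfin n).toFinset, (Ideal.absNorm I : ℝ) ^ (-x) =
        ((hfin n).toFinset.card : ℝ) * (n : ℝ) ^ (-x) := by
      rw [← nsmul_eq_mul, ← Finset.sum_const]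
      refine Finset.sum_congr rfl fun I hI => ?_
      rw [Set.Finite.mem_toFinset] at hI
      have h3 : Ideal.absNorm I = n := hI
      rw [h3]
    rw [h2]
    unfold z1_cnt
    have h3 : Nat.card {I : Ideal (𝓞 F) // Ideal.absNorm I = n} = (hfin n).toFinset.card :=
      Nat.card_eq_card_finite_toFinset (hfin n)
    rw [h3]

end Pool.Agent.Helper44.TC
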