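import Mathlib
import Pool.Agent.Helper44.TC.Dz
import Pool.Agent.Helper44.TC.Z1

/-!
# Piece A1-2: finite Euler products are at most the zeta function

PROOF. `w = wt x q` satisfies `0 < w ≤ 2 ^ (-x) < 1` (`nm q ≥ 2`). `(1 - w)⁻¹` is the limit of
`∑ k ∈ range K, w ^ k`, so it is enough (`le_of_tendsto'`, `tendsto_finset_prod`) that
`∏ q ∈ Q, ∑ k ∈ range K, w_q ^ k ≤ zt F x`. Expand (`Finset.prod_sum` or `Finset.prod_univ_sum`): the
sum over the families `f : Q → range K` of `∏ w_q ^ f q = absNorm (∏ q ^ f q) ^ (-x)` (`map_prod`,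
`map_pow`, `absNorm q.asIdeal = nm q`, `Real.rpow` of a product); the ideals `∏ q ^ f q` are nonzero and
different for different `f` (unique factorization: the multiplicity of `q` is `f q`), so this is a
sum as in `sum_le_zt`. Alternatively induction on `Q` with finite sets of ideals prime to `q`.
-/

set_option autoImplicit false

open NumberField IsDedekindDomain Filter Topology

namespace Pool.Agent.Helper44.TC

open Pool.Agent.Helper45.TC

private theorem a12_nm {F : Type} [Field F] [NumberField F] (q : HeightOneSpectrum (𝓞 F)) :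
    nm q = Ideal.absNorm q.asIdeal := by
  unfold nm
  rw [Ideal.absNorm_apply, Submodule.cardQuot_apply]

private theorem a12_two {F : Type} [Field F] [NumberField F] (q : HeightOneSpectrum (𝓞 F)) :
    2 ≤ nm q := by
  rw [a12_nm]
  have h0 : Ideal.absNorm q.asIdeal ≠ 0 := by
    rw [Ne, Ideal.absNorm_eq_zero_iff]
    exact q.ne_bot
  have h1 : Ideal.absNorm q.asIdeal ≠ 1 := by
    rw [Ne, Ideal.absNorm_eq_one_iff]
    exact q.isPrime.ne_top
  omega

private theorem a12_wt {F : Type} [Field F] [NumberField F] {x : ℝ} (hx : 1 < x)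
    (q : HeightOneSpectrum (𝓞 F)) : 0 < wt x q ∧ wt x q < 1 := by
  have h2 := a12_two q
  have h3 : (1 : ℝ) < (nm q : ℝ) := by exact_mod_cast h2
  unfold wt
  exact ⟨Real.rpow_pos_of_pos (by linarith) _, Real.rpow_lt_one_of_one_lt_of_neg h3 (by linarith)⟩

private theorem a12_norm {F : Type} [Field F] [NumberField F] {x : ℝ}
    (q : HeightOneSpectrum (𝓞 F)) (I : Ideal (𝓞 F)) (k : ℕ) :
    (Ideal.absNorm (I * q.asIdeal ^ k) : ℝ) ^ (-x) =
      (Ideal.absNorm I : ℝ) ^ (-x) * wt x q ^ k := by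
  unfold wt
  rw [a12_nm, map_mul, map_pow, Nat.cast_mul, Nat.cast_pow,
    Real.mul_rpow (Nat.cast_nonneg _) (pow_nonneg (Nat.cast_nonneg _) _),
    ← Real.rpow_natCast, ← Real.rpow_natCast, ← Real.rpow_mul (Nat.cast_nonneg _),
    ← Real.rpow_mul (Nat.cast_nonneg _), mul_comm (k : ℝ)]

private theorem a12_inj {F : Type} [Field F] [NumberField F] (q : HeightOneSpectrum (𝓞 F))
    {I J : Ideal (𝓞 F)} {k l : ℕ} (hI : ¬ q.asIdeal ∣ I) (hkl : k ≤ l)
    (h : I * q.asIdeal ^ k = J * q.asIdeal ^ l) : I = J ∧ k = l := by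
  obtain ⟨m, rfl⟩ := Nat.exists_eq_add_of_le hkl
  have hq : q.asIdeal ^ k ≠ 0 := pow_ne_zero _ q.ne_bot
  have h1 : I = J * q.asIdeal ^ m := by
    apply mul_right_cancel₀ hq
    rw [h, pow_add]
    ring
  rcases Nat.eq_zero_or_pos m with h0 | h0
  · subst h0
    exact ⟨by rw [h1, pow_zero, mul_one], rfl⟩
  · exfalso
    apply hI
    rw [h1]
    exact Dvd.dvd.mul_left (dvd_pow_self _ (by omega)) _

private theorem a12_aux (F : Type) [Field F] [NumberField F] {x : ℝ} (hx : 1 < x)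
    (Q : Finset (HeightOneSpectrum (𝓞 F))) : ∀ S : Finset (Ideal (𝓞 F)),
    (∀ I ∈ S, I ≠ ⊥ ∧ ∀ q ∈ Q, ¬ q.asIdeal ∣ I) →
    (∑ I ∈ S, (Ideal.absNorm I : ℝ) ^ (-x)) * ∏ q ∈ Q, (1 - wt x q)⁻¹ ≤ zt F x := by
  classical
  induction Q using Finset.induction_on with
  | empty =>
    intro S hS
    rw [Finset.prod_empty, mul_one]
    exact sum_le_zt F hx S fun I hI => (hS I hI).1
  | insert q Q' hq ih =>
    intro S hS
    have hw := a12_wt hx q
    have hprod : 0 ≤ ∏ q ∈ Q', (1 - wt x q)⁻¹ := by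
      refine Finset.prod_nonneg fun r _ => inv_nonneg.2 ?_
      have := (a12_wt hx r).2
      linarith
    have key : ∀ K : ℕ, (∑ I ∈ S, (Ideal.absNorm I : ℝ) ^ (-x)) *
        (∑ k ∈ Finset.range K, wt x q ^ k) * ∏ q ∈ Q', (1 - wt x q)⁻¹ ≤ zt F x := by
      intro K
      have hinj : Set.InjOn (fun p : Ideal (𝓞 F) × ℕ => p.1 * q.asIdeal ^ p.2)
          ((S ×ˢ Finset.range K : Finset (Ideal (𝓞 F) × ℕ)) : Set (Ideal (𝓞 F) × ℕ)) := by
        rintro ⟨I, k⟩ h1 ⟨J, l⟩ h2 h
        have hI := ((hS I (Finset.mem_product.1 (Finset.mem_coe.1 h1)).1).2 q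
          (Finset.mem_insert_self _ _))
        have hJ := ((hS J (Finset.mem_product.1 (Finset.mem_coe.1 h2)).1).2 q
          (Finset.mem_insert_self _ _))
        simp only at h
        rcases le_total k l with hkl | hkl
        · obtain ⟨rfl, rfl⟩ := a12_inj q hI hkl h
          rfl
        · obtain ⟨rfl, rfl⟩ := a12_inj q hJ hkl h.symm
          rfl
      have h1 := ih ((S ×ˢ Finset.range K).image fun p => p.1 * q.asIdeal ^ p.2) (by
        intro J hJ
        obtain ⟨⟨I, k⟩, hIk, rfl⟩ := Finset.mem_image.1 hJ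
        obtain ⟨hI, hk⟩ := Finset.mem_product.1 hIk
        simp only at hI hk ⊢
        refine ⟨mul_ne_zero (hS I hI).1 (pow_ne_zero _ q.ne_bot), ?_⟩
        intro r hr hd
        have hrp : Prime r.asIdeal := r.prime
        rcases hrp.dvd_or_dvd hd with h2 | h2
        · exact (hS I hI).2 r (Finset.mem_insert_of_mem hr) h2
        · have h3 : r.asIdeal ∣ q.asIdeal := hrp.dvd_of_dvd_pow h2
          have h4 : q.asIdeal ≤ r.asIdeal := Ideal.dvd_iff_le.1 h3
          have h5 : q.asIdeal = r.asIdeal :=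
            q.isMaximal.eq_of_le r.isPrime.ne_top h4
          have h6 : q = r := HeightOneSpectrum.ext h5
          rw [h6] at hq
          exact hq hr)
      rw [Finset.sum_image hinj, Finset.sum_product] at h1
      have h2 : ∑ I ∈ S, ∑ k ∈ Finset.range K,
          (Ideal.absNorm (I * q.asIdeal ^ k) : ℝ) ^ (-x) =
          (∑ I ∈ S, (Ideal.absNorm I : ℝ) ^ (-x)) * (∑ k ∈ Finset.range K, wt x q ^ k) := by
        rw [Finset.sum_mul]
        refine Finset.sum_congr rfl fun I _ => ?_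
        rw [Finset.mul_sum]
        exact Finset.sum_congr rfl fun k _ => a12_norm q I k
      rw [h2] at h1
      exact h1
    have hlim : Tendsto (fun K : ℕ => (∑ I ∈ S, (Ideal.absNorm I : ℝ) ^ (-x)) *
        (∑ k ∈ Finset.range K, wt x q ^ k) * ∏ q ∈ Q', (1 - wt x q)⁻¹) atTop
        (𝓝 ((∑ I ∈ S, (Ideal.absNorm I : ℝ) ^ (-x)) * (1 - wt x q)⁻¹ *
          ∏ q ∈ Q', (1 - wt x q)⁻¹)) := by
      refine Tendsto.mul_const _ (Tendsto.const_mul _ ?_)
      exact (hasSum_geometric_of_lt_one hw.1.le hw.2).tendsto_sum_nat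
    have h3 := le_of_tendsto' hlim key
    rw [Finset.prod_insert hq, ← mul_assoc]
    exact h3

theorem prod_le_zt (F : Type) [Field F] [NumberField F] {x : ℝ} (hx : 1 < x)
    (Q : Finset (HeightOneSpectrum (𝓞 F))) : ∏ q ∈ Q, (1 - wt x q)⁻¹ ≤ zt F x := by
  have h := a12_aux F hx Q {⊤} (by
    intro I hI
    rw [Finset.mem_singleton] at hI
    subst hI
    refine ⟨top_ne_bot, fun q _ hd => ?_⟩
    exact q.isPrime.ne_top (top_le_iff.1 (Ideal.dvd_iff_le.1 hd)))
  rw [Finset.sum_singleton, Ideal.absNorm_top, Nat.cast_one, Real.one_rpow, one_mul] at h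
  exact h

end Pool.Agent.Helper44.TC
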