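import Mathlib
import Pool.Agent.Helper44.TC.Dz

/-!
# Piece A1-3: finite sums over ideals are at most finite Euler products

PROOF. `w = wt x q` satisfies `0 < w ≤ 2 ^ (-x) < 1`. Let `Q` be the set of the primes dividing some
`I ∈ S` and `K` a bound for the multiplicities plus one. Every `I ∈ S` is `∏ q ∈ Q, q ^ f q` with
`f q < K` (unique factorization), so the sum is at most
`∑ f, ∏ q ∈ Q, w_q ^ f q = ∏ q ∈ Q, ∑ k ∈ range K, w_q ^ k ≤ ∏ q ∈ Q, (1 - w_q)⁻¹`.
Alternatively: induction on the number of primes, or first prove for a finite set `Q` of primes: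
for all finite `S` of nonzero ideals all of whose prime factors are in `Q` the bound holds (induction
on `Q`: `I = q ^ k * J`, group by `k`).
-/

set_option autoImplicit false

open NumberField IsDedekindDomain Filter Topology

namespace Pool.Agent.Helper44.TC

open Pool.Agent.Helper45.TC

/-- the weight of an ideal, as a homomorphism -/
private noncomputable def Z3_g (F : Type) [Field F] [NumberField F] (x : ℝ) :
    Ideal (𝓞 F) →* ℝ where
  toFun I := (Ideal.absNorm I : ℝ) ^ (-x)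
  map_one' := by rw [map_one, Nat.cast_one, Real.one_rpow]
  map_mul' I J := by
    rw [map_mul, Nat.cast_mul, Real.mul_rpow (Nat.cast_nonneg _) (Nat.cast_nonneg _)]

private theorem Z3_geom {w : ℝ} (h0 : 0 ≤ w) (h1 : w < 1) (K : ℕ) :
    ∑ k ∈ Finset.range K, w ^ k ≤ (1 - w)⁻¹ := by
  rw [← tsum_geometric_of_lt_one h0 h1]
  exact (summable_geometric_of_lt_one h0 h1).sum_le_tsum _ fun k _ => pow_nonneg h0 k

theorem sum_le_prod (F : Type) [Field F] [NumberField F] {x : ℝ} (hx : 1 < x)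
    (S : Finset (Ideal (𝓞 F))) (hS : ∀ I ∈ S, I ≠ ⊥) :
    ∃ Q : Finset (HeightOneSpectrum (𝓞 F)),
      ∑ I ∈ S, (Ideal.absNorm I : ℝ) ^ (-x) ≤ ∏ q ∈ Q, (1 - wt x q)⁻¹ := by
  classical
  obtain ⟨P, hP⟩ : ∃ P : Finset (Ideal (𝓞 F)), P = S.biUnion fun I =>
      (UniqueFactorizationMonoid.normalizedFactors I).toFinset := ⟨_, rfl⟩
  have hPS : ∀ I ∈ S, (UniqueFactorizationMonoid.normalizedFactors I).toFinset ⊆ P := by
    intro I hI
    rw [hP]
    exact Finset.subset_biUnion_of_mem (fun I : Ideal (𝓞 F) =>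
      (UniqueFactorizationMonoid.normalizedFactors I).toFinset) hI
  have hprime : ∀ q ∈ P, Prime q := by
    intro q hq
    rw [hP, Finset.mem_biUnion] at hq
    obtain ⟨I, -, hI⟩ := hq
    exact UniqueFactorizationMonoid.prime_of_normalized_factor q (Multiset.mem_toFinset.1 hI)
  have hfac : ∀ I ∈ S, I = ∏ q ∈ P, q ^ (UniqueFactorizationMonoid.normalizedFactors I).count q := by
    intro I hI
    rw [← Finset.prod_multiset_count_of_subset _ P (hPS I hI)]
    exact (Ideal.prod_normalizedFactors_eq_self (hS I hI)).symm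
  -- the weights of the primes
  have hw0 : ∀ q : Ideal (𝓞 F), 0 ≤ Z3_g F x q := fun q => Real.rpow_nonneg (Nat.cast_nonneg _) _
  have hw1 : ∀ q ∈ P, Z3_g F x q < 1 := by
    intro q hq
    have h1 := hprime q hq
    have h2 : Ideal.absNorm q ≠ 0 := by
      rw [Ne, Ideal.absNorm_eq_zero_iff]
      exact h1.ne_zero
    have h3 : Ideal.absNorm q ≠ 1 := by
      rw [Ne, Ideal.absNorm_eq_one_iff]
      exact (Ideal.isPrime_of_prime h1).ne_top
    have h4 : (1 : ℝ) < (Ideal.absNorm q : ℝ) := by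
      exact_mod_cast (show 1 < Ideal.absNorm q by omega)
    exact Real.rpow_lt_one_of_one_lt_of_neg h4 (by linarith)
  -- the bound for the exponents
  obtain ⟨K, hK⟩ : ∃ K : ℕ, ∀ I ∈ S, ∀ q,
      (UniqueFactorizationMonoid.normalizedFactors I).count q < K := by
    refine ⟨(∑ I ∈ S, Multiset.card (UniqueFactorizationMonoid.normalizedFactors I)) + 1,
      fun I hI q => ?_⟩
    have h1 := Multiset.count_le_card q (UniqueFactorizationMonoid.normalizedFactors I)
    have h2 : Multiset.card (UniqueFactorizationMonoid.normalizedFactors I) ≤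
        ∑ I ∈ S, Multiset.card (UniqueFactorizationMonoid.normalizedFactors I) :=
      Finset.single_le_sum (f := fun I : Ideal (𝓞 F) =>
        Multiset.card (UniqueFactorizationMonoid.normalizedFactors I))
        (fun _ _ => Nat.zero_le _) hI
    omega
  obtain ⟨φ, hφ⟩ : ∃ φ : Ideal (𝓞 F) → ((q : P) → ℕ),
      φ = fun I q => (UniqueFactorizationMonoid.normalizedFactors I).count q.1 := ⟨_, rfl⟩
  have hattach : ∀ e : Ideal (𝓞 F) → ℕ, ∏ q : P, Z3_g F x q.1 ^ e q.1 =
      ∏ q ∈ P, Z3_g F x q ^ e q := fun e =>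
    Finset.prod_coe_sort P fun q => Z3_g F x q ^ e q
  have hval : ∀ I ∈ S, Z3_g F x I = ∏ q : P, Z3_g F x q.1 ^ φ I q := by
    intro I hI
    have h1 := hattach (UniqueFactorizationMonoid.normalizedFactors I).count
    rw [hφ]
    beta_reduce
    rw [h1]
    conv_lhs => rw [hfac I hI]
    rw [map_prod]
    exact Finset.prod_congr rfl fun q _ => map_pow _ _ _
  have hinj : Set.InjOn φ (S : Set (Ideal (𝓞 F))) := by
    intro I hI J hJ hIJ
    rw [hφ] at hIJ
    rw [hfac I hI, hfac J hJ]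
    refine Finset.prod_congr rfl fun q hq => ?_
    have h1 := congrFun hIJ ⟨q, hq⟩
    exact congrArg (fun n => q ^ n) h1
  have hsub : S.image φ ⊆ Fintype.piFinset fun _ : P => Finset.range K := by
    intro f hf
    obtain ⟨I, hI, rfl⟩ := Finset.mem_image.1 hf
    rw [Fintype.mem_piFinset]
    intro q
    rw [Finset.mem_range, hφ]
    exact hK I hI q.1
  have hmain : ∑ I ∈ S, (Ideal.absNorm I : ℝ) ^ (-x) ≤ ∏ q ∈ P, (1 - Z3_g F x q)⁻¹ := by
    calc ∑ I ∈ S, (Ideal.absNorm I : ℝ) ^ (-x) = ∑ I ∈ S, ∏ q : P, Z3_g F x q.1 ^ φ I q :=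
          Finset.sum_congr rfl hval
      _ = ∑ f ∈ S.image φ, ∏ q : P, Z3_g F x q.1 ^ f q := by rw [Finset.sum_image hinj]
      _ ≤ ∑ f ∈ Fintype.piFinset fun _ : P => Finset.range K, ∏ q : P, Z3_g F x q.1 ^ f q :=
          Finset.sum_le_sum_of_subset_of_nonneg hsub fun f _ _ =>
            Finset.prod_nonneg fun q _ => pow_nonneg (hw0 _) _
      _ = ∏ q : P, ∑ k ∈ Finset.range K, Z3_g F x q.1 ^ k :=
          (Finset.prod_univ_sum (fun _ : P => Finset.range K)
            (fun q k => Z3_g F x q.1 ^ k)).symm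
      _ = ∏ q ∈ P, ∑ k ∈ Finset.range K, Z3_g F x q ^ k :=
          Finset.prod_coe_sort P fun q => ∑ k ∈ Finset.range K, Z3_g F x q ^ k
      _ ≤ ∏ q ∈ P, (1 - Z3_g F x q)⁻¹ :=
          Finset.prod_le_prod (fun q _ => Finset.sum_nonneg fun k _ => pow_nonneg (hw0 _) _)
            fun q hq => Z3_geom (hw0 q) (hw1 q hq) K
  have hi : Set.InjOn (HeightOneSpectrum.asIdeal (R := 𝓞 F))
      (HeightOneSpectrum.asIdeal ⁻¹' (P : Set (Ideal (𝓞 F)))) :=
    fun v _ w _ h => HeightOneSpectrum.ext h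
  refine ⟨P.preimage HeightOneSpectrum.asIdeal hi, hmain.trans (le_of_eq ?_)⟩
  rw [← Finset.prod_preimage (HeightOneSpectrum.asIdeal (R := 𝓞 F)) P hi
    (fun q => (1 - Z3_g F x q)⁻¹)]
  · rfl
  · intro q hq hq'
    exact absurd ⟨⟨q, Ideal.isPrime_of_prime (hprime q hq), (hprime q hq).ne_zero⟩, rfl⟩ hq'

end Pool.Agent.Helper44.TC
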