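import Mathlib
import Pool.Agent.Helper44.TC.Dz

/-!
# Piece A1-4: the primes of higher degree and the squares give bounded contributions

PROOF. Every prime `q` contains a prime number `p = p(q)` and `nm q = p ^ f`, `f ≥ 1`; there are at
most `[F : ℚ]` primes `q` with the same `p` (Mathlib: `Ideal.sum_ramification_inertia`,
`ncard_primesOver`, or: their product divides `p 𝓞 F` of norm `p ^ [F : ℚ]`). The summand is at
most `1 / p ^ 2` in both cases (`f = 1`: equal; `f ≥ 2`: `nm q ≥ p ^ 2`). So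
`C = [F : ℚ] * ∑' n, 1 / n ^ 2`. See also `dn`, `nm_dn` in Pool/Agent/H96/TC/Fin.lean.
-/

set_option autoImplicit false

open NumberField IsDedekindDomain Filter Topology

namespace Pool.Agent.Helper44.TC

open Pool.Agent.Helper45.TC

/-- the residue characteristic -/
private theorem z4_res {F : Type} [Field F] [NumberField F] (q : HeightOneSpectrum (𝓞 F)) :
    ∃ p n : ℕ, p.Prime ∧ 1 ≤ n ∧ nm q = p ^ n ∧ ((p : ℕ) : 𝓞 F) ∈ q.asIdeal := by
  haveI := q.isMaximal
  letI : Field (𝓞 F ⧸ q.asIdeal) := Ideal.Quotient.field q.asIdeal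
  haveI : Finite (𝓞 F ⧸ q.asIdeal) := inferInstance
  letI : Fintype (𝓞 F ⧸ q.asIdeal) := Fintype.ofFinite _
  obtain ⟨n, hp, hn⟩ := FiniteField.card (𝓞 F ⧸ q.asIdeal) (ringChar (𝓞 F ⧸ q.asIdeal))
  refine ⟨ringChar (𝓞 F ⧸ q.asIdeal), n, hp, n.pos, ?_, ?_⟩
  · rw [nm, Nat.card_eq_fintype_card, hn]
  · rw [← Ideal.Quotient.eq_zero_iff_mem, map_natCast]
    exact CharP.cast_eq_zero _ _

/-- the number of the primes above `p` -/
private theorem z4_card {F : Type} [Field F] [NumberField F] {p : ℕ} (hp : p.Prime)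
    (S : Finset (HeightOneSpectrum (𝓞 F)))
    (hS : ∀ q ∈ S, ((p : ℕ) : 𝓞 F) ∈ q.asIdeal ∧ p ≤ nm q) :
    S.card ≤ Module.finrank ℚ F := by
  classical
  have hinj : Set.InjOn (fun q : HeightOneSpectrum (𝓞 F) => q.asIdeal) S := fun a _ b _ h =>
    HeightOneSpectrum.ext h
  have h1 : ∏ q ∈ S, q.asIdeal ∣ Ideal.span {((p : ℕ) : 𝓞 F)} := by
    have h2 : ∏ I ∈ S.image (fun q => q.asIdeal), I ∣ Ideal.span {((p : ℕ) : 𝓞 F)} := by
      refine Finset.prod_primes_dvd _ ?_ ?_
      · intro I hI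
        obtain ⟨q, -, rfl⟩ := Finset.mem_image.1 hI
        exact q.prime
      · intro I hI
        obtain ⟨q, hq, rfl⟩ := Finset.mem_image.1 hI
        rw [Ideal.dvd_span_singleton]
        exact (hS q hq).1
    rwa [Finset.prod_image hinj] at h2
  have h3 : ∏ q ∈ S, nm q ∣ p ^ Module.finrank ℚ F := by
    have h4 := map_dvd (Ideal.absNorm (S := 𝓞 F)) h1
    rw [map_prod, Ideal.absNorm_span_singleton] at h4
    have h5 : (Algebra.norm ℤ ((p : ℕ) : 𝓞 F)).natAbs = p ^ Module.finrank ℚ F := by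
      have h6 : ((p : ℕ) : 𝓞 F) = algebraMap ℤ (𝓞 F) (p : ℤ) := by simp
      rw [h6, Algebra.norm_algebraMap, RingOfIntegers.rank, Int.natAbs_pow, Int.natAbs_natCast]
    rw [h5] at h4
    refine dvd_trans (dvd_of_eq ?_) h4
    refine Finset.prod_congr rfl fun q _ => ?_
    rw [Ideal.absNorm_apply, Submodule.cardQuot_apply, nm]
  have h6 : p ^ S.card ≤ p ^ Module.finrank ℚ F :=
    calc p ^ S.card = ∏ _q ∈ S, p := by rw [Finset.prod_const]
      _ ≤ ∏ q ∈ S, nm q := Finset.prod_le_prod' fun q hq => (hS q hq).2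
      _ ≤ _ := Nat.le_of_dvd (pow_pos hp.pos _) h3
  exact (Nat.pow_le_pow_iff_right hp.one_lt).1 h6

theorem sum_bdd (F : Type) [Field F] [NumberField F] : ∃ C : ℝ,
    ∀ Q : Finset (HeightOneSpectrum (𝓞 F)),
      (∑ q ∈ Q, open Classical in if (nm q).Prime then ((nm q : ℝ) ^ 2)⁻¹ else (nm q : ℝ)⁻¹) ≤
        C := by
  classical
  choose P N hP hN hnm hmem using fun q : HeightOneSpectrum (𝓞 F) => z4_res q
  have hle : ∀ q, P q ≤ nm q := fun q => by
    rw [hnm q]
    exact Nat.le_self_pow (by have := hN q; omega) _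
  have ht : ∀ q : HeightOneSpectrum (𝓞 F),
      (if (nm q).Prime then ((nm q : ℝ) ^ 2)⁻¹ else (nm q : ℝ)⁻¹) ≤ 1 / ((P q : ℕ) : ℝ) ^ 2 := by
    intro q
    have hp0 : (0 : ℝ) < ((P q : ℕ) : ℝ) := by exact_mod_cast (hP q).pos
    have hle' : ((P q : ℕ) : ℝ) ≤ (nm q : ℝ) := by exact_mod_cast hle q
    split_ifs with h
    · rw [← one_div]
      refine one_div_le_one_div_of_le (by positivity) ?_
      exact pow_le_pow_left₀ hp0.le hle' 2
    · rw [← one_div]
      refine one_div_le_one_div_of_le (by positivity) ?_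
      have h2 : 2 ≤ N q := by
        by_contra hlt
        have h3 := hN q
        have h4 : N q = 1 := by omega
        apply h
        rw [hnm q, h4, pow_one]
        exact hP q
      have h5 : P q ^ 2 ≤ nm q := by
        rw [hnm q]
        exact Nat.pow_le_pow_right (hP q).pos h2
      exact_mod_cast h5
  have hsum : Summable fun n : ℕ => 1 / (n : ℝ) ^ 2 :=
    Real.summable_one_div_nat_pow.2 (by norm_num)
  refine ⟨(Module.finrank ℚ F : ℝ) * ∑' n : ℕ, 1 / (n : ℝ) ^ 2, fun Q => ?_⟩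
  calc (∑ q ∈ Q, if (nm q).Prime then ((nm q : ℝ) ^ 2)⁻¹ else (nm q : ℝ)⁻¹)
      ≤ ∑ q ∈ Q, 1 / ((P q : ℕ) : ℝ) ^ 2 := Finset.sum_le_sum fun q _ => ht q
    _ = ∑ b ∈ Q.image P, (Q.filter fun q => P q = b).card • (1 / (b : ℝ) ^ 2) :=
        Finset.sum_comp (fun n : ℕ => 1 / (n : ℝ) ^ 2) P
    _ ≤ ∑ b ∈ Q.image P, (Module.finrank ℚ F : ℝ) * (1 / (b : ℝ) ^ 2) := by
        refine Finset.sum_le_sum fun b hb => ?_
        obtain ⟨q, -, hq⟩ := Finset.mem_image.1 hb
        rw [nsmul_eq_mul]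
        refine mul_le_mul_of_nonneg_right ?_ (by positivity)
        have h1 : (Q.filter fun q => P q = b).card ≤ Module.finrank ℚ F := by
          refine z4_card (p := b) (by rw [← hq]; exact hP q) _ fun q' hq' => ?_
          have h2 := (Finset.mem_filter.1 hq').2
          rw [← h2]
          exact ⟨hmem q', hle q'⟩
        exact_mod_cast h1
    _ = (Module.finrank ℚ F : ℝ) * ∑ b ∈ Q.image P, 1 / (b : ℝ) ^ 2 := by
        rw [Finset.mul_sum]
    _ ≤ _ := by
        refine mul_le_mul_of_nonneg_left ?_ (by positivity)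
        exact hsum.sum_le_tsum _ fun n _ => by positivity

end Pool.Agent.Helper44.TC
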