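import Mathlib
import Pool.Agent.Helper44.TC.Dz
import Pool.Agent.H96.TC.Fin

/-!
# Piece A1-5: the primes above a prime with a prime of relative degree one above it

PROOF. `B0` = ramified primes (finite: `fin_ram` in Pool/Agent/H96/TC/Fin.lean) . For `q` not in `B0`: all
primes above `q` are conjugate, so have the same relative degree `f = 1` (`nm P = nm q ^ f`), and
`g * e * f = [M : E]` with `e = 1`, so `g = [M : E]` (Mathlib:
`Ideal.ncard_primesOver_mul_ramificationIdxIn_mul_inertiaDegIn`).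
-/

set_option autoImplicit false

open NumberField IsDedekindDomain Filter Topology

namespace Pool.Agent.Helper44.TC

open Pool.Agent.Helper45.TC

open scoped Pointwise in
theorem card_above {E M : Type} [Field E] [NumberField E] [Field M] [NumberField M]
    [Algebra E M] [IsGalois E M] : ∃ B0 : Finset (HeightOneSpectrum (𝓞 E)),
    ∀ q : HeightOneSpectrum (𝓞 E), q ∉ B0 →
      (∃ P : HeightOneSpectrum (𝓞 M), P.asIdeal.comap (algebraMap (𝓞 E) (𝓞 M)) = q.asIdeal ∧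
        nm P = nm q) →
      ∃ T : Finset (HeightOneSpectrum (𝓞 M)), T.card = Module.finrank E M ∧
        ∀ P ∈ T, P.asIdeal.comap (algebraMap (𝓞 E) (𝓞 M)) = q.asIdeal ∧ nm P = nm q := by
  classical
  have hfd : FiniteDimensional E M := FiniteDimensional.right ℚ E M
  obtain ⟨n, hn0, hn⟩ := Pool.Agent.H96.TC.fin_ram E M
  refine ⟨(Pool.Agent.H96.TC.finite_mem hn0).toFinset, fun q hq hex => ?_⟩
  obtain ⟨P, hPq, hPn⟩ := hex
  have hnq : n ∉ q.asIdeal := fun h => hq ((Pool.Agent.H96.TC.finite_mem hn0).mem_toFinset.2 h)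
  have hP : P.asIdeal.IsPrime := P.isPrime
  have hPm : P.asIdeal.IsMaximal := P.isMaximal
  have hqp : q.asIdeal.IsPrime := q.isPrime
  have hqm : q.asIdeal.IsMaximal := q.isMaximal
  have hlo : P.asIdeal.LiesOver q.asIdeal := ⟨hPq.symm⟩
  -- inertia is trivial
  have hin : Nat.card (P.asIdeal.inertia (M ≃ₐ[E] M)) = 1 := by
    rw [Subgroup.card_eq_one, Subgroup.eq_bot_iff_forall]
    intro g hg
    refine hn P.asIdeal hPm ?_ g (fun x => hg x)
    change n ∉ P.asIdeal.comap (algebraMap (𝓞 E) (𝓞 M))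
    rw [hPq]
    exact hnq
  -- degree one
  have hdeg : P.asIdeal.inertiaDeg (𝓞 E) = 1 := by
    rw [Ideal.inertiaDeg_eq_of_isMaximal q.asIdeal P.asIdeal]
    let _ : Field (𝓞 E ⧸ q.asIdeal) := Ideal.Quotient.field q.asIdeal
    have h1 : Nat.card (𝓞 M ⧸ P.asIdeal) = Nat.card (𝓞 E ⧸ q.asIdeal) ^
        Module.finrank (𝓞 E ⧸ q.asIdeal) (𝓞 M ⧸ P.asIdeal) := Module.natCard_eq_pow_finrank
    have h2 : Nat.card (𝓞 M ⧸ P.asIdeal) = Nat.card (𝓞 E ⧸ q.asIdeal) := hPn
    have hfin : Finite (𝓞 E ⧸ q.asIdeal) := Ideal.finiteQuotientOfFreeOfNeBot _ q.ne_bot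
    have h3 : 1 < Nat.card (𝓞 E ⧸ q.asIdeal) := Finite.one_lt_card
    rw [h2] at h1
    exact Nat.pow_right_injective h3 (h1.symm.trans (pow_one _).symm)
  have hmain := Ideal.ncard_primesOver_mul_card_inertia_mul_finrank (G := (M ≃ₐ[E] M))
    q.asIdeal P.asIdeal
  rw [hin, hdeg, mul_one, mul_one, IsGalois.card_aut_eq_finrank] at hmain
  have hfinp : (q.asIdeal.primesOver (𝓞 M)).Finite :=
    Set.finite_of_ncard_ne_zero (by rw [hmain]; exact Module.finrank_pos.ne')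
  have hinj : Function.Injective (fun Q : HeightOneSpectrum (𝓞 M) => Q.asIdeal) :=
    fun Q Q' h => HeightOneSpectrum.ext h
  have hT : ((fun Q : HeightOneSpectrum (𝓞 M) => Q.asIdeal) ⁻¹'
      q.asIdeal.primesOver (𝓞 M)).Finite := hfinp.preimage hinj.injOn
  have himg : (fun Q : HeightOneSpectrum (𝓞 M) => Q.asIdeal) ''
      ((fun Q : HeightOneSpectrum (𝓞 M) => Q.asIdeal) ⁻¹' q.asIdeal.primesOver (𝓞 M)) =
        q.asIdeal.primesOver (𝓞 M) := by
    apply Set.image_preimage_eq_of_subset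
    intro Q hQ
    have hQp : Q.IsPrime := hQ.1
    have hQl : Q.LiesOver q.asIdeal := hQ.2
    refine ⟨⟨Q, hQp, ?_⟩, rfl⟩
    exact Ideal.ne_bot_of_liesOver_of_ne_bot q.ne_bot Q
  refine ⟨hT.toFinset, ?_, fun Q hQ => ?_⟩
  · rw [← Set.ncard_eq_toFinset_card _ hT, ← Set.ncard_image_of_injective _ hinj, himg, hmain]
  · have hQ1 : Q.asIdeal ∈ q.asIdeal.primesOver (𝓞 M) := (Set.Finite.mem_toFinset hT).1 hQ
    have hQp : Q.asIdeal.IsPrime := hQ1.1
    have hQl : Q.asIdeal.LiesOver q.asIdeal := hQ1.2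
    refine ⟨hQl.over.symm, ?_⟩
    obtain ⟨σ, hσ⟩ := Ideal.exists_smul_eq_of_isGaloisGroup q.asIdeal P.asIdeal Q.asIdeal
      (M ≃ₐ[E] M)
    rw [← hPn]
    refine (Nat.card_congr (Ideal.quotientEquiv P.asIdeal Q.asIdeal
      (MulSemiringAction.toRingEquiv (M ≃ₐ[E] M) (𝓞 M) σ) ?_).toEquiv).symm
    rw [← hσ]
    rfl

end Pool.Agent.Helper44.TC
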